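import Mathlib
import Pool.Agent.K4H82.Pierce

set_option autoImplicit false

/-!
# Partitions of the square grid into proper boxes with the `k`-piercing property

MP_21d1af_co: `p_box(2, k) = p_brick(2, k) = 4 (k - 1)` for every `k ≥ 2`.  Every partition of
`[n]²` into proper boxes such that every axis-parallel line meets at least `k` parts has at least
`4 (k - 1)` parts, and for `n ≥ 2 (k - 1)` there is one with `4 (k - 1)` parts, all of them bricks.

Proof.  Let `T` run through the sets of parts met by the rows and `U` through the sets of parts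
met by the columns; all of them have at least `k` elements, and `|T ∩ U| = 1` for all `T`, `U`.
We look for `0 ≤ α ≤ 1`, a random row and a random column such that each part is met by the random
row with probability `t_i ≤ α` and by the random column with probability `u_i ≤ 1 - α`: then
`0 ≤ ∑ (α - t_i) (1 - α - u_i) ≤ α (1 - α) m - (1 - α) k - α k + 1`, so `m ≥ 4 (k - 1)`.
By the minimax theorem there is a random row with `t_i ≤ θ` and weights `z_i` of the parts with sum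
`1` and `z(T) ≥ θ` for all `T`.  If `θ > 1/2`, then `t_i = θ` on the support `D` of `z`, so that
every `U`, on which the sum of the `t_i` is `1`, meets `D` in at most one element.  Choose
`i ∈ D` with probability `z_i` and a column `U_i` through the part `i`.  A part `l ∈ T` outside `D`
is not met by `U_i` for `i ∈ T ∩ D`, and a part `l ∈ D` only by `U_l`; in both cases
`u_l ≤ 1 - θ`.  The same holds with rows and columns interchanged; and if both values are at most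
`1/2`, take `α = 1/2`.
-/

open Finset Filter Topology

namespace Pool.Agent.Results.MP_21d1af_co.PiercingNumber

/-- A proper box of the grid `[n]²`: a product of two nonempty sets different from `[n]`. -/
def ProperBox {n : ℕ} (B : Finset (Fin n × Fin n)) : Prop :=
  ∃ B₁ B₂ : Finset (Fin n), B₁.Nonempty ∧ B₂.Nonempty ∧ B₁ ≠ univ ∧ B₂ ≠ univ ∧ B = B₁ ×ˢ B₂

/-- A proper brick: a proper box whose sides are sets of consecutive integers. -/
def ProperBrick {n : ℕ} (B : Finset (Fin n × Fin n)) : Prop :=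
  ∃ a b c d : Fin n, a ≤ b ∧ c ≤ d ∧ Icc a b ≠ univ ∧ Icc c d ≠ univ ∧ B = Icc a b ×ˢ Icc c d

/-- `P` is a partition of the grid `[n]²` (into nonempty sets, if the members are boxes). -/
def IsPartition {n : ℕ} (P : Finset (Finset (Fin n × Fin n))) : Prop :=
  (∀ B ∈ P, ∀ C ∈ P, B ≠ C → Disjoint B C) ∧ ∀ p, ∃ B ∈ P, p ∈ B

open Classical in
/-- Every row and every column of `[n]²` meets at least `k` members of `P`. -/
def Piercing {n : ℕ} (k : ℕ) (P : Finset (Finset (Fin n × Fin n))) : Prop :=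
  (∀ j : Fin n, k ≤ (P.filter fun B => ∃ i, (i, j) ∈ B).card) ∧
    ∀ i : Fin n, k ≤ (P.filter fun B => ∃ j, (i, j) ∈ B).card

/-- `p_box(n, 2, k)`. -/
noncomputable def pBox (n k : ℕ) : ℕ :=
  sInf {m | ∃ P : Finset (Finset (Fin n × Fin n)), IsPartition P ∧ (∀ B ∈ P, ProperBox B) ∧
    Piercing k P ∧ P.card = m}

/-- `p_brick(n, 2, k)`. -/
noncomputable def pBrick (n k : ℕ) : ℕ :=
  sInf {m | ∃ P : Finset (Finset (Fin n × Fin n)), IsPartition P ∧ (∀ B ∈ P, ProperBrick B) ∧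
    Piercing k P ∧ P.card = m}

lemma ProperBrick.properBox {n : ℕ} {B : Finset (Fin n × Fin n)} (h : ProperBrick B) :
    ProperBox B := by
  obtain ⟨a, b, c, d, hab, hcd, h1, h2, h3⟩ := h
  exact ⟨Icc a b, Icc c d, nonempty_Icc.2 hab, nonempty_Icc.2 hcd, h1, h2, h3⟩

/-! ### The lower bound -/

theorem lower {n : ℕ} (hn : 1 ≤ n) (k : ℕ) (hk : 2 ≤ k) (P : Finset (Finset (Fin n × Fin n)))
    (hP : IsPartition P) (hB : ∀ B ∈ P, ProperBox B) (hp : Piercing k P) :
    4 * (k - 1) ≤ P.card := by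
  classical
  have : Nonempty (Fin n) := ⟨⟨0, hn⟩⟩
  let T : Fin n → Finset {B // B ∈ P} := fun j => univ.filter fun B => ∃ i, (i, j) ∈ B.1
  let U : Fin n → Finset {B // B ∈ P} := fun i => univ.filter fun B => ∃ j, (i, j) ∈ B.1
  have hcard : ∀ (q : Finset (Fin n × Fin n) → Prop) [DecidablePred q],
      ((univ : Finset {B // B ∈ P}).filter fun B => q B.1).card = (P.filter q).card := by
    intro q _
    rw [← Finset.card_map (Function.Embedding.subtype _)]
    congr 1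
    ext B
    rw [Finset.mem_map, Finset.mem_filter]
    constructor
    · rintro ⟨C, hC, rfl⟩
      exact ⟨C.2, (Finset.mem_filter.1 hC).2⟩
    · rintro ⟨h1, h2⟩
      exact ⟨⟨B, h1⟩, Finset.mem_filter.2 ⟨mem_univ _, h2⟩, rfl⟩
  have h := Pool.Agent.K4H82.Pierce.main T U k hk ?_ ?_ ?_ ?_ ?_
  · rwa [Fintype.card_coe] at h
  · intro j i
    rw [Finset.card_eq_one]
    obtain ⟨B, hBP, hpB⟩ := hP.2 (i, j)
    refine ⟨⟨B, hBP⟩, ?_⟩
    ext C
    simp only [T, U, mem_inter, mem_filter, mem_univ, true_and, mem_singleton]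
    constructor
    · rintro ⟨⟨i', h1⟩, ⟨j', h2⟩⟩
      have hmem : (i, j) ∈ C.1 := by
        obtain ⟨C₁, C₂, _, _, _, _, hC⟩ := hB C.1 C.2
        rw [hC] at h1 h2 ⊢
        rw [mem_product] at h1 h2 ⊢
        exact ⟨h2.1, h1.2⟩
      by_contra hne
      have hne' : C.1 ≠ B := fun h => hne (Subtype.ext h)
      exact (Finset.disjoint_left.1 (hP.1 C.1 C.2 B hBP hne')) hmem hpB
    · rintro rfl
      exact ⟨⟨i, hpB⟩, ⟨j, hpB⟩⟩
  · intro j
    refine le_trans (hp.1 j) (le_of_eq ?_)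
    rw [← hcard fun B => ∃ i, (i, j) ∈ B]
  · intro i
    refine le_trans (hp.2 i) (le_of_eq ?_)
    rw [← hcard fun B => ∃ j, (i, j) ∈ B]
  · intro C
    obtain ⟨C₁, C₂, ⟨i, hi⟩, ⟨j, hj⟩, _, _, hC⟩ := hB C.1 C.2
    refine ⟨j, ?_⟩
    simp only [T, mem_filter, mem_univ, true_and]
    exact ⟨i, by rw [hC, mem_product]; exact ⟨hi, hj⟩⟩
  · intro C
    obtain ⟨C₁, C₂, ⟨i, hi⟩, ⟨j, hj⟩, _, _, hC⟩ := hB C.1 C.2
    refine ⟨i, ?_⟩
    simp only [U, mem_filter, mem_univ, true_and]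
    exact ⟨j, by rw [hC, mem_product]; exact ⟨hi, hj⟩⟩

/-! ### The construction -/

/-- the end of the `j`-th of the `a` intervals into which `{a, …, n - 1}` is divided -/
def en (n a j : ℕ) : ℕ := if j + 1 < a then a + j else n - 1

/-- ends of the sides of the bricks -/
def lo1 (a q j : ℕ) : ℕ := if q = 0 then j else if q = 1 then a else if q = 2 then 0 else a + j
def hi1 (n a q j : ℕ) : ℕ :=
  if q = 0 then j else if q = 1 then n - 1 else if q = 2 then a - 1 else en n a j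
def lo2 (a q j : ℕ) : ℕ := if q = 0 then 0 else if q = 1 then j else if q = 2 then a + j else a
def hi2 (n a q j : ℕ) : ℕ :=
  if q = 0 then a - 1 else if q = 1 then j else if q = 2 then en n a j else n - 1

/-- the bricks -/
def F (n a : ℕ) (l : Fin 4 × Fin a) : Finset (Fin n × Fin n) :=
  univ.filter fun p => (lo1 a l.1 l.2 ≤ p.1.1 ∧ p.1.1 ≤ hi1 n a l.1 l.2) ∧
    (lo2 a l.1 l.2 ≤ p.2.1 ∧ p.2.1 ≤ hi2 n a l.1 l.2)

lemma mem_F {n a : ℕ} (l : Fin 4 × Fin a) (p : Fin n × Fin n) : p ∈ F n a l ↔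
    (lo1 a l.1 l.2 ≤ p.1.1 ∧ p.1.1 ≤ hi1 n a l.1 l.2) ∧
    (lo2 a l.1 l.2 ≤ p.2.1 ∧ p.2.1 ≤ hi2 n a l.1 l.2) := by
  simp [F]

lemma F_unique {n a : ℕ} (hn : 2 * a ≤ n) (l l' : Fin 4 × Fin a) (p : Fin n × Fin n)
    (h : p ∈ F n a l) (h' : p ∈ F n a l') : l = l' := by
  obtain ⟨⟨q, hq⟩, ⟨j, hj⟩⟩ := l
  obtain ⟨⟨q', hq'⟩, ⟨j', hj'⟩⟩ := l'
  rw [mem_F] at h h'
  simp only at h h'
  have hx := p.1.2
  have hy := p.2.2
  suffices q = q' ∧ j = j' by
    obtain ⟨rfl, rfl⟩ := this; rfl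
  simp only [lo1, hi1, lo2, hi2, en] at h h'
  split_ifs at h h' <;> omega

lemma brick_bounds {n a : ℕ} (ha : 1 ≤ a) (hn : 2 * a ≤ n) (q : ℕ) (hq : q < 4) (j : ℕ) (hj : j < a) :
    lo1 a q j ≤ hi1 n a q j ∧ hi1 n a q j < n ∧ lo2 a q j ≤ hi2 n a q j ∧ hi2 n a q j < n ∧
      (0 < lo1 a q j ∨ hi1 n a q j < n - 1) ∧ (0 < lo2 a q j ∨ hi2 n a q j < n - 1) := by
  simp only [lo1, hi1, lo2, hi2, en]
  split_ifs <;> first | omega | simp_all | (simp_all; omega)

lemma F_brick {n a : ℕ} (ha : 1 ≤ a) (hn : 2 * a ≤ n) (l : Fin 4 × Fin a) :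
    ProperBrick (F n a l) := by
  obtain ⟨h1, h2, h3, h4, h5, h6⟩ := brick_bounds ha hn l.1 l.1.2 l.2 l.2.2
  refine ⟨⟨lo1 a l.1 l.2, lt_of_le_of_lt h1 h2⟩, ⟨hi1 n a l.1 l.2, h2⟩,
    ⟨lo2 a l.1 l.2, lt_of_le_of_lt h3 h4⟩, ⟨hi2 n a l.1 l.2, h4⟩, h1, h3, ?_, ?_, ?_⟩
  · intro h
    have hz : (⟨0, by omega⟩ : Fin n) ∈ (univ : Finset (Fin n)) := mem_univ _
    have hl : (⟨n - 1, by omega⟩ : Fin n) ∈ (univ : Finset (Fin n)) := mem_univ _
    rw [← h, mem_Icc, Fin.le_def, Fin.le_def] at hz hl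
    simp only at hz hl
    omega
  · intro h
    have hz : (⟨0, by omega⟩ : Fin n) ∈ (univ : Finset (Fin n)) := mem_univ _
    have hl : (⟨n - 1, by omega⟩ : Fin n) ∈ (univ : Finset (Fin n)) := mem_univ _
    rw [← h, mem_Icc, Fin.le_def, Fin.le_def] at hz hl
    simp only at hz hl
    omega
  · ext p
    rw [mem_F, mem_product, mem_Icc, mem_Icc, Fin.le_def, Fin.le_def, Fin.le_def, Fin.le_def]

lemma F_nonempty {n a : ℕ} (ha : 1 ≤ a) (hn : 2 * a ≤ n) (l : Fin 4 × Fin a) :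
    (F n a l).Nonempty := by
  obtain ⟨h1, h2, h3, h4, _, _⟩ := brick_bounds ha hn l.1 l.1.2 l.2 l.2.2
  refine ⟨(⟨lo1 a l.1 l.2, lt_of_le_of_lt h1 h2⟩, ⟨lo2 a l.1 l.2, lt_of_le_of_lt h3 h4⟩), ?_⟩
  rw [mem_F]
  exact ⟨⟨le_rfl, h1⟩, ⟨le_rfl, h3⟩⟩

lemma F_inj {n a : ℕ} (ha : 1 ≤ a) (hn : 2 * a ≤ n) : Function.Injective (F n a) := by
  intro l l' h
  obtain ⟨p, hp⟩ := F_nonempty ha hn l
  exact F_unique hn l l' p hp (h ▸ hp)

lemma cover_nat {n a : ℕ} (ha : 1 ≤ a) (x y : ℕ) (hx : x < n) (hy : y < n) :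
    ∃ q < 4, ∃ j < a, (lo1 a q j ≤ x ∧ x ≤ hi1 n a q j) ∧ (lo2 a q j ≤ y ∧ y ≤ hi2 n a q j) := by
  by_cases h1 : x < a
  · by_cases h2 : y < a
    · refine ⟨0, by norm_num, x, h1, ?_⟩
      simp only [lo1, hi1, lo2, hi2, en]; split_ifs <;> first | omega | simp_all | (simp_all; omega)
    · refine ⟨2, by norm_num, min (y - a) (a - 1), by omega, ?_⟩
      simp only [lo1, hi1, lo2, hi2, en]; split_ifs <;> first | omega | simp_all | (simp_all; omega)
  · by_cases h2 : y < a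
    · refine ⟨1, by norm_num, y, h2, ?_⟩
      simp only [lo1, hi1, lo2, hi2, en]; split_ifs <;> first | omega | simp_all | (simp_all; omega)
    · refine ⟨3, by norm_num, min (x - a) (a - 1), by omega, ?_⟩
      simp only [lo1, hi1, lo2, hi2, en]; split_ifs <;> first | omega | simp_all | (simp_all; omega)

lemma F_cover {n a : ℕ} (ha : 1 ≤ a) (p : Fin n × Fin n) : ∃ l, p ∈ F n a l := by
  obtain ⟨q, hq, j, hj, h⟩ := cover_nat ha p.1.1 p.2.1 p.1.2 p.2.2
  exact ⟨(⟨q, hq⟩, ⟨j, hj⟩), (mem_F _ _).2 h⟩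

/-- a set of labels that contains all the first kind and one of the second -/
lemma label_card {n a : ℕ} (ha : 1 ≤ a) (hn : 2 * a ≤ n) (r : Finset (Fin n × Fin n) → Prop)
    [DecidablePred r] (q q' : Fin 4) (hq : q ≠ q') (j' : Fin a) (h1 : ∀ j, r (F n a (q, j)))
    (h2 : r (F n a (q', j'))) :
    a + 1 ≤ (((univ : Finset (Fin 4 × Fin a)).image (F n a)).filter r).card := by
  let S : Finset (Fin 4 × Fin a) := insert (q', j') (univ.image fun j => (q, j))
  have hS : S.card = a + 1 := by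
    rw [Finset.card_insert_of_notMem, Finset.card_image_of_injective, Finset.card_univ,
      Fintype.card_fin]
    · intro x y h; exact (Prod.mk.inj h).2
    · intro h
      obtain ⟨j, _, hj⟩ := Finset.mem_image.1 h
      exact hq (Prod.mk.inj hj).1
  rw [← hS, ← Finset.card_image_of_injective S (F_inj ha hn)]
  apply Finset.card_le_card
  intro B hB
  obtain ⟨l, hl, rfl⟩ := Finset.mem_image.1 hB
  rw [mem_filter]
  refine ⟨mem_image_of_mem _ (mem_univ _), ?_⟩
  rcases Finset.mem_insert.1 hl with rfl | hl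
  · exact h2
  · obtain ⟨j, _, rfl⟩ := Finset.mem_image.1 hl
    exact h1 j

theorem upper {n a : ℕ} (ha : 1 ≤ a) (hn : 2 * a ≤ n) :
    ∃ P : Finset (Finset (Fin n × Fin n)), IsPartition P ∧ (∀ B ∈ P, ProperBrick B) ∧
      Piercing (a + 1) P ∧ P.card = 4 * a := by
  classical
  refine ⟨univ.image (F n a), ⟨?_, ?_⟩, ?_, ⟨?_, ?_⟩, ?_⟩
  · intro B hB C hC hne
    obtain ⟨l, _, rfl⟩ := Finset.mem_image.1 hB
    obtain ⟨l', _, rfl⟩ := Finset.mem_image.1 hC
    rw [Finset.disjoint_left]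
    intro p hp hp'
    exact hne (by rw [F_unique hn l l' p hp hp'])
  · intro p
    obtain ⟨l, hl⟩ := F_cover ha p
    exact ⟨_, mem_image_of_mem _ (mem_univ l), hl⟩
  · intro B hB
    obtain ⟨l, _, rfl⟩ := Finset.mem_image.1 hB
    exact F_brick ha hn l
  · rintro ⟨y, hy⟩
    by_cases h : y < a
    · refine label_card ha hn _ ⟨0, by norm_num⟩ ⟨1, by norm_num⟩ (by decide) ⟨y, h⟩ ?_ ?_
      · rintro ⟨j, hj⟩
        refine ⟨⟨j, by omega⟩, ?_⟩
        rw [mem_F]; simp only [lo1, hi1, lo2, hi2, en]; split_ifs <;> first | omega | simp_all | (simp_all; omega)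
      · refine ⟨⟨a, by omega⟩, ?_⟩
        rw [mem_F]; simp only [lo1, hi1, lo2, hi2, en]; split_ifs <;> first | omega | simp_all | (simp_all; omega)
    · refine label_card ha hn _ ⟨3, by norm_num⟩ ⟨2, by norm_num⟩ (by decide)
        ⟨min (y - a) (a - 1), by omega⟩ ?_ ?_
      · rintro ⟨j, hj⟩
        refine ⟨⟨a + j, by omega⟩, ?_⟩
        rw [mem_F]; simp only [lo1, hi1, lo2, hi2, en]; split_ifs <;> first | omega | simp_all | (simp_all; omega)
      · refine ⟨⟨0, by omega⟩, ?_⟩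
        rw [mem_F]; simp only [lo1, hi1, lo2, hi2, en]; split_ifs <;> first | omega | simp_all | (simp_all; omega)
  · rintro ⟨x, hx⟩
    by_cases h : x < a
    · refine label_card ha hn _ ⟨2, by norm_num⟩ ⟨0, by norm_num⟩ (by decide) ⟨x, h⟩ ?_ ?_
      · rintro ⟨j, hj⟩
        refine ⟨⟨a + j, by omega⟩, ?_⟩
        rw [mem_F]; simp only [lo1, hi1, lo2, hi2, en]; split_ifs <;> first | omega | simp_all | (simp_all; omega)
      · refine ⟨⟨0, by omega⟩, ?_⟩
        rw [mem_F]; simp only [lo1, hi1, lo2, hi2, en]; split_ifs <;> first | omega | simp_all | (simp_all; omega)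
    · refine label_card ha hn _ ⟨1, by norm_num⟩ ⟨3, by norm_num⟩ (by decide)
        ⟨min (x - a) (a - 1), by omega⟩ ?_ ?_
      · rintro ⟨j, hj⟩
        refine ⟨⟨j, by omega⟩, ?_⟩
        rw [mem_F]; simp only [lo1, hi1, lo2, hi2, en]; split_ifs <;> first | omega | simp_all | (simp_all; omega)
      · refine ⟨⟨a, by omega⟩, ?_⟩
        rw [mem_F]; simp only [lo1, hi1, lo2, hi2, en]; split_ifs <;> first | omega | simp_all | (simp_all; omega)
  · rw [Finset.card_image_of_injective _ (F_inj ha hn), Finset.card_univ, Fintype.card_prod,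
      Fintype.card_fin, Fintype.card_fin]

theorem values {k n : ℕ} (hk : 2 ≤ k) (hn : 2 * (k - 1) ≤ n) :
    pBox n k = 4 * (k - 1) ∧ pBrick n k = 4 * (k - 1) := by
  have ha : 1 ≤ k - 1 := by omega
  obtain ⟨P, hP, hB, hp, hc⟩ := upper ha hn
  have hk' : k - 1 + 1 = k := by omega
  rw [hk'] at hp
  constructor
  · apply le_antisymm
    · exact Nat.sInf_le ⟨P, hP, fun B h => (hB B h).properBox, hp, hc⟩
    · refine le_csInf ⟨4 * (k - 1), P, hP, fun B h => (hB B h).properBox, hp, hc⟩ ?_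
      rintro m ⟨Q, hQ, hQB, hQp, rfl⟩
      exact lower (by omega) k hk Q hQ hQB hQp
  · apply le_antisymm
    · exact Nat.sInf_le ⟨P, hP, hB, hp, hc⟩
    · refine le_csInf ⟨4 * (k - 1), P, hP, hB, hp, hc⟩ ?_
      rintro m ⟨Q, hQ, hQB, hQp, rfl⟩
      exact lower (by omega) k hk Q hQ (fun B h => (hQB B h).properBox) hQp

theorem result (k : ℕ) (hk : 2 ≤ k) :
    (∀ n : ℕ, 1 ≤ n → ∀ P : Finset (Finset (Fin n × Fin n)), IsPartition P →
      (∀ B ∈ P, ProperBox B) → Piercing k P → 4 * (k - 1) ≤ P.card) ∧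
    (∀ n : ℕ, 2 * (k - 1) ≤ n → ∃ P : Finset (Finset (Fin n × Fin n)), IsPartition P ∧
      (∀ B ∈ P, ProperBrick B) ∧ Piercing k P ∧ P.card = 4 * (k - 1)) ∧
    (∀ n : ℕ, 2 * (k - 1) ≤ n → pBox n k = 4 * (k - 1) ∧ pBrick n k = 4 * (k - 1)) ∧
    Tendsto (fun n => pBox n k) atTop (𝓝 (4 * (k - 1))) ∧
    Tendsto (fun n => pBrick n k) atTop (𝓝 (4 * (k - 1))) := by
  refine ⟨fun n hn P hP hB hp => lower hn k hk P hP hB hp, fun n hn => ?_,
    fun n hn => values hk hn, ?_, ?_⟩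
  · have h := upper (by omega : 1 ≤ k - 1) hn
    have hk' : k - 1 + 1 = k := by omega
    rwa [hk'] at h
  · refine tendsto_const_nhds.congr' ?_
    filter_upwards [eventually_ge_atTop (2 * (k - 1))] with n hn
    exact (values hk hn).1.symm
  · refine tendsto_const_nhds.congr' ?_
    filter_upwards [eventually_ge_atTop (2 * (k - 1))] with n hn
    exact (values hk hn).2.symm

end Pool.Agent.Results.MP_21d1af_co.PiercingNumber
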